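import Pool.Agent.Q69.WavD
import Pool.Agent.Q69.WavE
import Pool.Agent.Q69.WavF

/-!
# A wavelet set in `ℝ` that tiles `ℝ` multiplicatively by no set of automorphisms

`G = ℝ`, with `Ĝ = ℝ` through the pairing `⟨ξ, x⟩ = e^{2πixξ}`.  Every automorphism of `ℝ` is
`x ↦ a x` with `a ≠ 0`; its modular factor is `|a|` and its adjoint is `ξ ↦ a ξ`.
-/

open MeasureTheory FourierTransform Set

noncomputable section

namespace Pool.Agent.Results.MP_b00f94_an.NoMultiplicativeTiling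

/-- The function `ψ_{l,a}(x) = |a|^{1/2} ψ(a x - l)`. -/
def waveletFun (ψ : ℝ → ℂ) (l a : ℝ) : ℝ → ℂ :=
  fun x => ((Real.sqrt |a| : ℝ) : ℂ) * ψ (a * x - l)

/-- A family of vectors of a Hilbert space is an orthogonal basis: its members are nonzero and
pairwise orthogonal, and the closed linear span is the whole space. -/
def IsOrthogonalBasis {ι H : Type*} [NormedAddCommGroup H] [InnerProductSpace ℂ H]
    (v : ι → H) : Prop :=
  (∀ i, v i ≠ 0) ∧ (∀ i j, i ≠ j → inner ℂ (v i) (v j) = 0) ∧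
    (Submodule.span ℂ (Set.range v)).topologicalClosure = ⊤

/-- `Ω ⊆ ℝ` is a wavelet set for the countable dilation set `A` (nonzero reals) and the countable
translation set `Λ`: it is measurable with `0 < |Ω| < ∞`, and for some (equivalently the)
`ψ ∈ L²(ℝ)` with Fourier transform `1_Ω`, the functions `ψ_{l,a}` (`l ∈ Λ`, `a ∈ A`) are in
`L²(ℝ)` and form an orthogonal basis of `L²(ℝ)`. -/
def IsWaveletSet (Ω A Λ : Set ℝ) : Prop :=
  MeasurableSet Ω ∧ 0 < volume Ω ∧ volume Ω < ⊤ ∧ A.Countable ∧ (0 : ℝ) ∉ A ∧ Λ.Countable ∧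
  ∃ ψ : Lp ℂ 2 (volume : Measure ℝ),
    (((𝓕 ψ : Lp ℂ 2 (volume : Measure ℝ)) : ℝ → ℂ) =ᵐ[volume] Ω.indicator (fun _ => 1)) ∧
    ∃ v : Λ × A → Lp ℂ 2 (volume : Measure ℝ),
      (∀ p : Λ × A, ((v p : Lp ℂ 2 (volume : Measure ℝ)) : ℝ → ℂ)
        =ᵐ[volume] waveletFun ψ (p.1 : ℝ) (p.2 : ℝ)) ∧
      IsOrthogonalBasis v

/-- `Ω` tiles `ℝ` multiplicatively with multiplicity `k` by the set `A'` of automorphisms. -/
def TilesMultiplicatively (Ω A' : Set ℝ) (k : ℕ) : Prop :=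
  ∀ᵐ ξ ∂(volume : Measure ℝ),
    ∑' a : A', ((fun x : ℝ => (a : ℝ) * x) '' Ω).indicator (fun _ => (1 : ENNReal)) ξ = k

/-- the dilations `2^n`, `n ∈ ℤ` -/
def dyadic : Set ℝ := Set.range fun n : ℤ => (2 : ℝ) ^ n

/-- the translations `ℤ + 1/2` -/
def halfIntegers : Set ℝ := Set.range fun l : ℤ => (l : ℝ) + 1 / 2

/-- `{1/7 < |x| < 1/5} ∪ {3/7 < |x| < 8/7} ∪ {16/5 < |x| < 24/7}` -/
def Omega : Set ℝ :=
  {x | (1 / 7 < |x| ∧ |x| < 1 / 5) ∨ (3 / 7 < |x| ∧ |x| < 8 / 7) ∨ (16 / 5 < |x| ∧ |x| < 24 / 7)}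

open Q69Wav

theorem Omega_eq : Omega = Om := by
  ext x
  rw [mem_Om_iff]
  rfl

theorem countable_dyadic : dyadic.Countable := Set.countable_range _
theorem countable_half : halfIntegers.Countable := Set.countable_range _

theorem zero_notMem_dyadic : (0 : ℝ) ∉ dyadic := by
  rintro ⟨n, hn⟩
  exact zpow_ne_zero n (two_ne_zero (α := ℝ)) hn

theorem zero_notMem_half : (0 : ℝ) ∉ halfIntegers := by
  rintro ⟨l, hl⟩
  have h1 : (l : ℝ) * 2 = -1 := by
    have : (l : ℝ) + 1 / 2 = 0 := hl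
    linarith
  have h2 : l * 2 = -1 := by exact_mod_cast h1
  omega

theorem memLp_chi : MemLp chi 2 (volume : Measure ℝ) :=
  memLp_indicator_const 2 measurableSet_Om 1 (Or.inr volume_Om_lt.ne)

/-- `1_Ω` as an element of `L²` -/
def X : Lp ℂ 2 (volume : Measure ℝ) := memLp_chi.toLp

/-- the wavelet -/
def psi : Lp ℂ 2 (volume : Measure ℝ) := 𝓕⁻ X

theorem fourier_psi : 𝓕 psi = X := FourierTransform.fourier_fourierInv_eq X

theorem X_ae : ((X : Lp ℂ 2 (volume : Measure ℝ)) : ℝ → ℂ) =ᵐ[volume] chi := memLp_chi.coeFn_toLp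

theorem ne_zero_of_dyadic (a : dyadic) : (a : ℝ) ≠ 0 := fun h => zero_notMem_dyadic (h ▸ a.2)

/-- the system -/
def vv (p : halfIntegers × dyadic) : Lp ℂ 2 (volume : Measure ℝ) :=
  T (ne_zero_of_dyadic p.2) (p.1 : ℝ) psi

theorem vv_ae (p : halfIntegers × dyadic) :
    ((vv p : Lp ℂ 2 (volume : Measure ℝ)) : ℝ → ℂ) =ᵐ[volume]
      waveletFun psi (p.1 : ℝ) (p.2 : ℝ) :=
  (memLp_aff (ne_zero_of_dyadic p.2) (p.1 : ℝ) (Lp.memLp psi)).coeFn_toLp

theorem fourier_vv (p : halfIntegers × dyadic) :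
    ((𝓕 (vv p) : Lp ℂ 2 (volume : Measure ℝ)) : ℝ → ℂ) =ᵐ[volume]
      mod (p.2 : ℝ) (p.1 : ℝ) chi := by
  have h1 : 𝓕 (vv p) = S (ne_zero_of_dyadic p.2) (p.1 : ℝ) X := by
    rw [vv, fourier_T, fourier_psi]
  rw [h1]
  have h2 := (memLp_mod (ne_zero_of_dyadic p.2) (p.1 : ℝ) (Lp.memLp X)).coeFn_toLp
  have h3 := mod_congr (ne_zero_of_dyadic p.2) (p.1 : ℝ) X_ae
  exact h2.trans h3

theorem norm_T {a : ℝ} (ha : a ≠ 0) (l : ℝ) (f : Lp ℂ 2 (volume : Measure ℝ)) :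
    ‖T ha l f‖ = ‖f‖ := by
  rw [Lp.norm_def, Lp.norm_def]
  congr 1
  rw [← eLpNorm_aff ha l (Lp.memLp f).1]
  exact eLpNorm_congr_ae (memLp_aff ha l (Lp.memLp f)).coeFn_toLp

theorem X_ne_zero : X ≠ 0 := by
  intro h
  have h1 : chi =ᵐ[volume] (0 : ℝ → ℂ) := by
    have h2 := X_ae
    rw [h] at h2
    exact h2.symm.trans (Lp.coeFn_zero _ _ _)
  have h2 : volume Om = 0 := by
    have h3 : Om ⊆ {x | ¬ chi x = (0 : ℝ → ℂ) x} := by
      intro x hx
      simp [chi_of_mem hx]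
    exact measure_mono_null h3 (by rwa [Filter.EventuallyEq, ae_iff] at h1)
  exact volume_Om_pos.ne' h2

theorem vv_ne_zero (p : halfIntegers × dyadic) : vv p ≠ 0 := by
  have h : ‖vv p‖ = ‖X‖ := by
    rw [vv, norm_T, ← fourier_psi, Lp.norm_fourier_eq]
  intro h0
  rw [h0, norm_zero] at h
  exact X_ne_zero (norm_eq_zero.1 h.symm)

theorem vv_orth (p q : halfIntegers × dyadic) (hpq : p ≠ q) : inner ℂ (vv p) (vv q) = 0 := by
  rw [← Lp.inner_fourier_eq, L2.inner_def]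
  obtain ⟨⟨_, l, rfl⟩, ⟨_, n, rfl⟩⟩ := p
  obtain ⟨⟨_, l', rfl⟩, ⟨_, m, rfl⟩⟩ := q
  rw [← orth n m l l' (by
    rintro rfl rfl
    exact hpq rfl)]
  refine integral_congr_ae ?_
  filter_upwards [fourier_vv ⟨⟨(l : ℝ) + 1 / 2, l, rfl⟩, ⟨(2 : ℝ) ^ n, n, rfl⟩⟩,
    fourier_vv ⟨⟨(l' : ℝ) + 1 / 2, l', rfl⟩, ⟨(2 : ℝ) ^ m, m, rfl⟩⟩] with x h1 h2
  rw [h1, h2]
  simp only [RCLike.inner_apply]
  rw [mul_comm]

theorem vv_total : (Submodule.span ℂ (Set.range vv)).topologicalClosure = ⊤ := by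
  rw [Submodule.topologicalClosure_eq_top_iff, Submodule.eq_bot_iff]
  intro f hf
  have hf' : ∀ p, inner ℂ (vv p) f = 0 := fun p =>
    (Submodule.mem_orthogonal _ _).1 hf _ (Submodule.subset_span ⟨p, rfl⟩)
  -- pass to the Fourier side
  set g : Lp ℂ 2 (volume : Measure ℝ) := 𝓕 f with hg
  have hg0 : ∀ᵐ x ∂(volume : Measure ℝ), (g : ℝ → ℂ) x = 0 := by
    refine complete_fourier (Lp.memLp g) ?_
    intro n l
    have h2n : (2 : ℝ) ^ n ≠ 0 := zpow_ne_zero _ two_ne_zero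
    have h1 := hf' ⟨⟨(l : ℝ) + 1 / 2, l, rfl⟩, ⟨(2 : ℝ) ^ n, n, rfl⟩⟩
    rw [← Lp.inner_fourier_eq, L2.inner_def] at h1
    set F : ℝ → ℂ := fun x => (starRingEnd ℂ) (mod ((2 : ℝ) ^ n) ((l : ℝ) + 1 / 2) chi x) *
      (g : ℝ → ℂ) x with hF
    have h2 : ∫ x, F x = 0 := by
      rw [← h1]
      refine integral_congr_ae ?_
      filter_upwards [fourier_vv ⟨⟨(l : ℝ) + 1 / 2, l, rfl⟩, ⟨(2 : ℝ) ^ n, n, rfl⟩⟩] with x h1
      rw [h1]
      simp only [RCLike.inner_apply, hF]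
      rw [mul_comm]
    have h3 := Measure.integral_comp_mul_left F ((2 : ℝ) ^ n)
    rw [h2, smul_zero] at h3
    have h4 : ∀ x, F ((2 : ℝ) ^ n * x) = ((Real.sqrt |((2 : ℝ) ^ n)⁻¹| : ℝ) : ℂ) *
        (Complex.exp (((2 * Real.pi * (l + 1 / 2) * x : ℝ) : ℂ) * Complex.I) *
      (chi x * (g : ℝ → ℂ) ((2 : ℝ) ^ n * x))) := by
      intro x
      simp only [hF, mod, aff, map_mul, Complex.conj_ofReal, sub_zero]
      have c1 : (starRingEnd ℂ) (chi ((((2 : ℝ) ^ n)⁻¹) * ((2 : ℝ) ^ n * x))) = chi x := by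
        rw [← mul_assoc, inv_mul_cancel₀ h2n, one_mul]
        by_cases hx : x ∈ Om
        · simp [chi_of_mem hx]
        · simp [chi_of_not_mem hx]
      have c3 : (starRingEnd ℂ) (Complex.exp (((-2 * Real.pi * (((l : ℝ) + 1 / 2) / (2 : ℝ) ^ n) *
          ((2 : ℝ) ^ n * x) : ℝ) : ℂ) * Complex.I))
          = Complex.exp (((2 * Real.pi * (l + 1 / 2) * x : ℝ) : ℂ) * Complex.I) := by
        rw [← Complex.exp_conj]
        congr 1
        rw [map_mul, Complex.conj_ofReal, Complex.conj_I, mul_neg, ← neg_mul,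
          ← Complex.ofReal_neg]
        congr 2
        field_simp
      rw [c1, c3]
      ring
    simp_rw [h4] at h3
    rw [integral_const_mul] at h3
    rcases mul_eq_zero.1 h3 with h | h
    · exfalso
      have h5 : Real.sqrt |((2 : ℝ) ^ n)⁻¹| ≠ 0 :=
        (Real.sqrt_pos.2 (abs_pos.2 (inv_ne_zero h2n))).ne'
      exact h5 (by exact_mod_cast h)
    · exact h
  have hg1 : g = 0 := by
    apply Lp.ext
    filter_upwards [hg0, Lp.coeFn_zero ℂ 2 (volume : Measure ℝ)] with x h1 h2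
    rw [h1, h2]; rfl
  have h5 : ‖f‖ = 0 := by
    rw [← Lp.norm_fourier_eq, ← hg, hg1, norm_zero]
  exact norm_eq_zero.1 h5

/-- **Main result.**  In `G = ℝ`, the set `Omega` is a wavelet set for the dilations `2^n` and
the translations `ℤ + 1/2`, which do not contain the identity `0`, and `Omega` tiles `ℝ`
multiplicatively (multiplicity one) by no set of automorphisms of `ℝ`. -/
theorem result :
    IsWaveletSet Omega dyadic halfIntegers ∧ (0 : ℝ) ∉ halfIntegers ∧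
    ∀ A' : Set ℝ, A'.Countable → (0 : ℝ) ∉ A' → ¬ TilesMultiplicatively Omega A' 1 := by
  refine ⟨⟨?_, ?_, ?_, countable_dyadic, zero_notMem_dyadic, countable_half, psi, ?_, vv, vv_ae,
    vv_ne_zero, vv_orth, vv_total⟩, zero_notMem_half, ?_⟩
  · rw [Omega_eq]; exact measurableSet_Om
  · rw [Omega_eq]; exact volume_Om_pos
  · rw [Omega_eq]; exact volume_Om_lt
  · rw [fourier_psi, Omega_eq]; exact X_ae
  · intro A' _ h0 h
    rw [Omega_eq] at h
    refine no_tiling_tsum h0 ?_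
    simpa [TilesMultiplicatively] using h

end Pool.Agent.Results.MP_b00f94_an.NoMultiplicativeTiling
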